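import Mathlib
import Pool.Agent.Helper1.BalanceDefs
import Pool.Agent.Wit.Rate

/-!
# Small posets with almost the same balance constant; finite form of the inequalities of Q1
-/

set_option autoImplicit false

namespace Pool.Agent.Results.MP_c890a7_co.SmallWitnesses

open Pool.Agent.Helper1.Balance Pool.Agent.Wit

/-- Let `δ_w` be the infimum of the balance constants of the finite posets of width `w` and
`δ_w(N)` the infimum over those with at most `N` elements.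
1. If every element of the poset `P` is incomparable to at most `D` others, then for
   `0 < η ≤ 1/2` there is a poset `P'` of the same width with at most `(1/η)^((4D+4)^(2D+6))`
   elements and `|δ(P') - δ(P)| ≤ η`.
There is an absolute constant `C ≥ 1` such that, with `K_w = exp (exp (C (log (w + 3))^C))`,
2. for `0 < ε, η ≤ 1/2` every poset `P` with `δ(P) ≤ 1/2 - ε` has a `P'` of the same width with
   at most `(1/η)^(exp ((1/ε)^(C/ε^4)))` elements and `|δ(P') - δ(P)| ≤ η`;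
3. if `a ≤ 5/12`, `0 < η ≤ 1/2` and some poset of width `w` has balance constant less than `a`,
   then some poset of width `w` with at most `(1/η)^C` elements has balance constant less than
   `a + η` (`a = 1/3 - η`: small counterexamples to the 1/3-2/3 conjecture);
4. `δ_w ≤ δ_w(N) ≤ δ_w + N^(-1/K_w)` for `w ≥ 2` and `N ≥ 2^(K_w)`;
5. for `w, w' ≥ 2`, `δ_w < δ_{w'}` if and only if
   `δ_w(N) + N^(-1/K) < δ_{w'}(N)` for some `N ≥ 2^K`, where `K = K_{max (w, w')}`. -/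
theorem result :
    (∀ (D n w : ℕ) (r : Fin n → Fin n → Prop), IsPoset r → HasWidth r w →
      (∀ x, Nat.card {y : Fin n // ¬ r x y ∧ ¬ r y x} ≤ D) →
      ∀ η : ℝ, 0 < η → η ≤ 1 / 2 → ∃ (m : ℕ) (r' : Fin m → Fin m → Prop),
        IsPoset r' ∧ HasWidth r' w ∧ m ≤ n ∧
        (m : ℝ) ≤ (1 / η) ^ ((4 * D + 4) ^ (2 * D + 6)) ∧ |balance r' - balance r| ≤ η) ∧
    ∃ C : ℝ, 1 ≤ C ∧
    (∀ ε η : ℝ, 0 < ε → ε ≤ 1 / 2 → 0 < η → η ≤ 1 / 2 →
      ∀ (n w : ℕ) (r : Fin n → Fin n → Prop), IsPoset r → HasWidth r w →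
      balance r ≤ 1 / 2 - ε → ∃ (m : ℕ) (r' : Fin m → Fin m → Prop), IsPoset r' ∧
        HasWidth r' w ∧ m ≤ n ∧ (m : ℝ) ≤ (1 / η) ^ (Real.exp ((1 / ε) ^ (C / ε ^ 4))) ∧
        |balance r' - balance r| ≤ η) ∧
    (∀ a η : ℝ, a ≤ 5 / 12 → 0 < η → η ≤ 1 / 2 →
      ∀ (n w : ℕ) (r : Fin n → Fin n → Prop), IsPoset r → HasWidth r w → balance r < a →
        ∃ (m : ℕ) (r' : Fin m → Fin m → Prop), IsPoset r' ∧ HasWidth r' w ∧ m ≤ n ∧
          (m : ℝ) ≤ (1 / η) ^ C ∧ balance r' < a + η) ∧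
    (∀ w N : ℕ, 2 ≤ w → (2 : ℝ) ^ KK C w ≤ N →
      deltaW w ≤ deltaN w N ∧ deltaN w N ≤ deltaW w + (N : ℝ) ^ (-(1 / KK C w))) ∧
    (∀ w w' : ℕ, 2 ≤ w → 2 ≤ w' → (deltaW w < deltaW w' ↔
      ∃ N : ℕ, (2 : ℝ) ^ KK C (max w w') ≤ N ∧
        deltaN w N + (N : ℝ) ^ (-(1 / KK C (max w w'))) < deltaN w' N)) :=
  Pool.Agent.Wit.final

end Pool.Agent.Results.MP_c890a7_co.SmallWitnesses
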